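import Mathlib

set_option autoImplicit false

/-! The Banach space attached to a hereditary family of finite sets: completion of `c₀₀(Γ)` in the
norm `sup_{F ∈ 𝒜} ∑_{γ ∈ F} |x γ|`. -/

namespace Pool.Helper957.Tro

open scoped ENNReal

variable {Γ : Type} (𝒜 : Finset Γ → Prop)

/-- index set: admissible finite sets and sign patterns -/
abbrev Idx : Type := {F : Finset Γ // 𝒜 F} × Set Γ

/-- ambient space -/
abbrev Amb : Type := lp (fun _ : Idx 𝒜 => ℝ) ∞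

open Classical in
/-- sign -/
noncomputable def sg (S : Set Γ) (g : Γ) : ℝ := if g ∈ S then -1 else 1

omit 𝒜 in
theorem abs_sg (S : Set Γ) (g : Γ) : |sg S g| = 1 := by
  unfold sg; split_ifs <;> simp

open Classical in
/-- the raw vector -/
noncomputable def vr (g : Γ) : Idx 𝒜 → ℝ := fun p => if g ∈ p.1.1 then sg p.2 g else 0

theorem abs_vr_le (g : Γ) (p : Idx 𝒜) : |vr 𝒜 g p| ≤ 1 := by
  unfold vr; split_ifs
  · rw [abs_sg]
  · simp

theorem memlp_of_bdd {f : Idx 𝒜 → ℝ} {C : ℝ} (h : ∀ p, |f p| ≤ C) :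
    Memℓp (E := fun _ : Idx 𝒜 => ℝ) f ∞ := by
  apply memℓp_infty
  refine ⟨C, ?_⟩
  rintro _ ⟨p, rfl⟩
  simpa [Real.norm_eq_abs] using h p

/-- basis vector in the ambient space -/
noncomputable def v (g : Γ) : Amb 𝒜 := ⟨vr 𝒜 g, memlp_of_bdd 𝒜 (abs_vr_le 𝒜 g)⟩

@[simp] theorem v_apply (g : Γ) (p : Idx 𝒜) : (v 𝒜 g : Idx 𝒜 → ℝ) p = vr 𝒜 g p := rfl

/-- the closed subspace -/
noncomputable def XS : Submodule ℝ (Amb 𝒜) := (Submodule.span ℝ (Set.range (v 𝒜))).topologicalClosure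

/-- the space -/
abbrev X : Type := XS 𝒜

noncomputable instance : CompleteSpace (X 𝒜) := by
  have : IsClosed (XS 𝒜 : Set (Amb 𝒜)) := Submodule.isClosed_topologicalClosure _
  exact this.completeSpace_coe

/-- evaluation functional -/
noncomputable def evl (p : Idx 𝒜) : Amb 𝒜 →L[ℝ] ℝ :=
  LinearMap.mkContinuous
    { toFun := fun x => (x : Idx 𝒜 → ℝ) p
      map_add' := fun x y => rfl
      map_smul' := fun c x => rfl } 1 (fun x => by
        rw [one_mul]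
        exact lp.norm_apply_le_norm ENNReal.top_ne_zero x p)

@[simp] theorem evl_apply (p : Idx 𝒜) (x : Amb 𝒜) : evl 𝒜 p x = (x : Idx 𝒜 → ℝ) p := rfl

/-- basis vector -/
noncomputable def e (g : Γ) : X 𝒜 :=
  ⟨v 𝒜 g, Submodule.le_topologicalClosure _ (Submodule.subset_span ⟨g, rfl⟩)⟩

variable (hs : ∀ g, 𝒜 {g})

/-- coordinate functional on the ambient space -/
noncomputable def fa (g : Γ) : Amb 𝒜 →L[ℝ] ℝ := evl 𝒜 (⟨{g}, hs g⟩, ∅)

/-- coordinate functional -/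
noncomputable def f (g : Γ) : X 𝒜 →L[ℝ] ℝ := (fa 𝒜 hs g).comp (XS 𝒜).subtypeL

theorem fa_v_self (g : Γ) : fa 𝒜 hs g (v 𝒜 g) = 1 := by
  simp [fa, vr, sg]

theorem fa_v_ne {g h : Γ} (hgh : g ≠ h) : fa 𝒜 hs g (v 𝒜 h) = 0 := by
  simp [fa, vr, hgh.symm]

theorem f_e_self (g : Γ) : f 𝒜 hs g (e 𝒜 g) = 1 := fa_v_self 𝒜 hs g

theorem f_e_ne {g h : Γ} (hgh : g ≠ h) : f 𝒜 hs g (e 𝒜 h) = 0 := fa_v_ne 𝒜 hs hgh

/-- coordinates determine the vector -/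
theorem coord (x : Amb 𝒜) (hx : x ∈ XS 𝒜) (p : Idx 𝒜) :
    (x : Idx 𝒜 → ℝ) p = ∑ g ∈ p.1.1, sg p.2 g * fa 𝒜 hs g x := by
  classical
  have hcl : IsClosed {x : Amb 𝒜 | evl 𝒜 p x = ∑ g ∈ p.1.1, sg p.2 g * fa 𝒜 hs g x} := by
    apply isClosed_eq (evl 𝒜 p).continuous
    apply continuous_finsetSum
    intro g _
    exact continuous_const.mul (fa 𝒜 hs g).continuous
  have hsub : (Submodule.span ℝ (Set.range (v 𝒜)) : Set (Amb 𝒜)) ⊆
      {x : Amb 𝒜 | evl 𝒜 p x = ∑ g ∈ p.1.1, sg p.2 g * fa 𝒜 hs g x} := by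
    intro y hy
    refine Submodule.span_induction (p := fun y _ => evl 𝒜 p y = ∑ g ∈ p.1.1, sg p.2 g * fa 𝒜 hs g y)
      ?_ ?_ ?_ ?_ hy
    · rintro _ ⟨h, rfl⟩
      have : ∀ g, sg p.2 g * fa 𝒜 hs g (v 𝒜 h) = if g = h then sg p.2 h else 0 := by
        intro g
        by_cases hgh : g = h
        · subst hgh; rw [fa_v_self]; simp
        · rw [fa_v_ne 𝒜 hs hgh]; simp [hgh]
      simp only [this, Finset.sum_ite_eq']
      simp [vr]
    · simp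
    · intro a b _ _ ha hb
      rw [map_add, ha, hb, ← Finset.sum_add_distrib]
      refine Finset.sum_congr rfl fun g _ => ?_
      rw [map_add]; ring
    · intro c a _ ha
      rw [map_smul, ha, smul_eq_mul, Finset.mul_sum]
      refine Finset.sum_congr rfl fun g _ => ?_
      rw [map_smul, smul_eq_mul]; ring
  have := closure_minimal hsub hcl
  exact this hx

theorem sum_abs_le (x : X 𝒜) (F : Finset Γ) (hF : 𝒜 F) : ∑ g ∈ F, |f 𝒜 hs g x| ≤ ‖x‖ := by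
  classical
  set S : Set Γ := {g | f 𝒜 hs g x < 0} with hS
  have h1 := coord 𝒜 hs x.1 x.2 (⟨F, hF⟩, S)
  have h2 : ∑ g ∈ F, |f 𝒜 hs g x| = (x.1 : Idx 𝒜 → ℝ) (⟨F, hF⟩, S) := by
    rw [h1]
    refine Finset.sum_congr rfl fun g _ => ?_
    have : fa 𝒜 hs g x.1 = f 𝒜 hs g x := rfl
    rw [this]
    unfold sg
    by_cases hg : f 𝒜 hs g x < 0
    · rw [if_pos (show g ∈ S from hg), abs_of_neg hg]; ring
    · rw [if_neg (show ¬ g ∈ S from hg), abs_of_nonneg (not_lt.mp hg)]; ring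
  rw [h2]
  have h3 := lp.norm_apply_le_norm ENNReal.top_ne_zero x.1 (⟨F, hF⟩, S)
  exact (le_abs_self _).trans h3

theorem norm_le_of (h0 : 𝒜 ∅) (x : X 𝒜) (B : ℝ)
    (h : ∀ F, 𝒜 F → ∑ g ∈ F, |f 𝒜 hs g x| ≤ B) : ‖x‖ ≤ B := by
  have hB : 0 ≤ B := by simpa using h ∅ h0
  have : ‖x.1‖ ≤ B := by
    refine lp.norm_le_of_forall_le hB fun p => ?_
    rw [coord 𝒜 hs x.1 x.2 p, Real.norm_eq_abs]
    refine (Finset.abs_sum_le_sum_abs _ _).trans ?_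
    refine le_trans (Finset.sum_le_sum fun g _ => ?_) (h p.1.1 p.1.2)
    rw [abs_mul, abs_sg, one_mul]
    exact le_rfl
  exact this

theorem span_support (x : Amb 𝒜) (hx : x ∈ Submodule.span ℝ (Set.range (v 𝒜))) :
    ∃ F0 : Finset Γ, ∀ g, g ∉ F0 → fa 𝒜 hs g x = 0 := by
  classical
  refine Submodule.span_induction (p := fun y _ => ∃ F0 : Finset Γ, ∀ g, g ∉ F0 → fa 𝒜 hs g y = 0)
      ?_ ?_ ?_ ?_ hx
  · rintro _ ⟨h, rfl⟩
    refine ⟨{h}, fun g hg => fa_v_ne 𝒜 hs ?_⟩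
    simpa using hg
  · exact ⟨∅, fun g _ => by simp⟩
  · rintro a b _ _ ⟨F, hF⟩ ⟨G, hG⟩
    refine ⟨F ∪ G, fun g hg => ?_⟩
    rw [Finset.mem_union, not_or] at hg
    rw [map_add, hF g hg.1, hG g hg.2, add_zero]
  · rintro c a _ ⟨F, hF⟩
    exact ⟨F, fun g hg => by rw [map_smul, hF g hg, smul_zero]⟩

theorem tail (x : X 𝒜) (ε : ℝ) (hε : 0 < ε) :
    ∃ F0 : Finset Γ, ∀ F, 𝒜 F → Disjoint F F0 → ∑ g ∈ F, |f 𝒜 hs g x| ≤ ε := by
  have hx : (x : Amb 𝒜) ∈ closure (Submodule.span ℝ (Set.range (v 𝒜)) : Set (Amb 𝒜)) := x.2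
  rw [Metric.mem_closure_iff] at hx
  obtain ⟨y, hy, hxy⟩ := hx ε hε
  obtain ⟨F0, hF0⟩ := span_support 𝒜 hs y hy
  refine ⟨F0, fun F hF hd => ?_⟩
  set y' : X 𝒜 := ⟨y, Submodule.le_topologicalClosure _ hy⟩
  have h1 := sum_abs_le 𝒜 hs (x - y') F hF
  have h2 : ‖x - y'‖ ≤ ε := by
    have : ‖x - y'‖ = dist (x : Amb 𝒜) y := by
      rw [dist_eq_norm]; rfl
    rw [this]; exact hxy.le
  refine le_trans (le_of_eq ?_) (h1.trans h2)
  refine Finset.sum_congr rfl fun g hg => ?_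
  have : f 𝒜 hs g y' = 0 := hF0 g (Finset.disjoint_left.mp hd hg)
  rw [map_sub, this, sub_zero]

theorem f_sum (c : Γ → ℝ) (G : Finset Γ) (g : Γ) [DecidableEq Γ] :
    f 𝒜 hs g (∑ i ∈ G, c i • e 𝒜 i) = if g ∈ G then c g else 0 := by
  rw [map_sum]
  have : ∀ i, f 𝒜 hs g (c i • e 𝒜 i) = if g = i then c i else 0 := by
    intro i
    rw [map_smul, smul_eq_mul]
    by_cases h : g = i
    · subst h; rw [f_e_self]; simp
    · rw [f_e_ne 𝒜 hs h]; simp [h]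
  simp only [this, Finset.sum_ite_eq]

theorem hasSum (h0 : 𝒜 ∅) (hsub : ∀ F G, G ⊆ F → 𝒜 F → 𝒜 G) (x : X 𝒜) :
    HasSum (fun i => f 𝒜 hs i x • e 𝒜 i) x := by
  classical
  rw [HasSum, SummationFilter.unconditional_filter, Metric.tendsto_atTop]
  intro ε hε
  obtain ⟨F0, hF0⟩ := tail 𝒜 hs x (ε / 2) (by positivity)
  refine ⟨F0, fun G hG => ?_⟩
  rw [dist_comm, dist_eq_norm]
  refine lt_of_le_of_lt (norm_le_of 𝒜 hs h0 _ (ε / 2) ?_) (by linarith)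
  intro F hF
  have h1 : ∑ g ∈ F, |f 𝒜 hs g (x - ∑ i ∈ G, f 𝒜 hs i x • e 𝒜 i)| =
      ∑ g ∈ F \ G, |f 𝒜 hs g x| := by
    symm
    apply Finset.sum_subset_zero_on_sdiff Finset.sdiff_subset
    · intro g hg
      rw [Finset.mem_sdiff, Finset.mem_sdiff, not_and_not_right] at hg
      have hgG : g ∈ G := hg.2 hg.1
      rw [map_sub, f_sum, if_pos hgG, sub_self, abs_zero]
    · intro g hg
      rw [Finset.mem_sdiff] at hg
      rw [map_sub, f_sum, if_neg hg.2, sub_zero]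
  rw [h1]
  exact hF0 _ (hsub _ _ Finset.sdiff_subset hF)
    (Finset.disjoint_of_subset_right hG Finset.sdiff_disjoint)

end Pool.Helper957.Tro
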