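import Mathlib
import Pool.Agent.Helper957.Tro.Space

set_option autoImplicit false

/-! Countable supports of functionals on the space of `Tro/Space.lean` when the family is
`Ad s F : a < b` in `F`, `s b K = a` implies at most `K+1` elements of `F` in `[a,b)`. -/

namespace Pool.Helper957.Tro

open scoped ENNReal

/-- admissible sets (same formula as in Helper937/Tro1) -/
def Ad {Γ : Type} [LinearOrder Γ] (s : Γ → ℕ → Γ) (F : Finset Γ) : Prop :=
  ∀ a ∈ F, ∀ b ∈ F, a < b → ∀ K, s b K = a → (F.filter (fun x => a ≤ x ∧ x < b)).card ≤ K + 1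

variable {Γ : Type} [LinearOrder Γ] {s : Γ → ℕ → Γ}

theorem Ad.mono {F G : Finset Γ} (hG : G ⊆ F) (hF : Ad s F) : Ad s G := by
  intro a ha b hb hab K hK
  refine le_trans (Finset.card_le_card ?_) (hF a (hG ha) b (hG hb) hab K hK)
  intro x hx
  rw [Finset.mem_filter] at hx ⊢
  exact ⟨hG hx.1, hx.2⟩

theorem Ad.single (g : Γ) : Ad s {g} := by
  intro a ha b hb hab
  rw [Finset.mem_singleton] at ha hb
  subst ha; subst hb
  exact absurd hab (lt_irrefl _)

theorem Ad.empty : Ad s (∅ : Finset Γ) := by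
  intro a ha
  simp at ha

/-- if `α ∈ F` is below a set `Y` all of whose members `β` satisfy `s β k = α`,
then `F` has at most `k+1` elements in `Y` -/
theorem card_above {F : Finset Γ} (hF : Ad s F) {α : Γ} (hα : α ∈ F) {k : ℕ} {D : Finset Γ}
    (hD : ∀ β ∈ D, α < β ∧ s β k = α) (hDF : D ⊆ F) : D.card ≤ k + 1 := by
  classical
  rcases D.eq_empty_or_nonempty with rfl | hne
  · simp
  set b := D.max' hne with hb
  have hbD : b ∈ D := D.max'_mem hne
  have h1 := hF α hα b (hDF hbD) (hD b hbD).1 k (hD b hbD).2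
  have h2 : insert α (D.erase b) ⊆ F.filter (fun x => α ≤ x ∧ x < b) := by
    intro x hx
    rw [Finset.mem_insert] at hx
    rw [Finset.mem_filter]
    rcases hx with rfl | hx
    · exact ⟨hα, le_rfl, (hD b hbD).1⟩
    · have hxD := Finset.mem_of_mem_erase hx
      refine ⟨hDF hxD, (hD x hxD).1.le, lt_of_le_of_ne (D.le_max' x hxD) (Finset.ne_of_mem_erase hx)⟩
  have h3 := (Finset.card_le_card h2).trans h1
  have h4 : α ∉ D.erase b := fun h => lt_irrefl α (hD α (Finset.mem_of_mem_erase h)).1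
  rw [Finset.card_insert_of_notMem h4, Finset.card_erase_of_mem hbD] at h3
  have : 0 < D.card := Finset.card_pos.mpr hne
  omega

variable (hs : ∀ a b : Γ, a < b → ∃ K, s b K = a)

include hs in
theorem countable_Iio (b : Γ) : (Set.Iio b).Countable := by
  have : Set.Iio b ⊆ Set.range (s b) := fun a ha => hs a b ha
  exact (Set.countable_range _).mono this

include hs in
theorem countable_Iic (b : Γ) : (Set.Iic b).Countable := by
  have : Set.Iic b = insert b (Set.Iio b) := by
    ext x; simp [le_iff_eq_or_lt]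
  rw [this]
  exact (countable_Iio hs b).insert b

include hs in
theorem exists_block (m : ℕ) : ∀ (Y : Set Γ), ¬ Y.Countable → ∀ η : ℝ, 0 < η →
    ∃ (y : Γ → ℝ) (D : Finset Γ), (↑D ⊆ Y) ∧ (∀ g, 0 ≤ y g) ∧ (∀ g, y g ≤ η) ∧
      (∀ g, g ∉ D → y g = 0) ∧ ∑ g ∈ D, y g = m ∧ ∀ F, Ad s F → ∑ g ∈ F, y g ≤ 2 := by
  classical
  induction m with
  | zero =>
    intro Y _ η hη
    exact ⟨fun _ => 0, ∅, by simp, by simp, fun _ => hη.le, by simp, by simp, by simp⟩
  | succ m ih =>
    intro Y hY η hη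
    -- choose the first block
    obtain ⟨n, hn⟩ := exists_nat_gt (1 / η)
    have hn0 : 0 < (n : ℝ) := lt_trans (by positivity) hn
    have hinf : Y.Infinite := fun h => hY h.countable
    obtain ⟨D1, hD1, hcard⟩ := hinf.exists_subset_card_eq n
    -- above
    have hY1 : ¬ {β ∈ Y | ∀ α ∈ D1, α < β}.Countable := by
      intro hc
      apply hY
      have : Y ⊆ {β ∈ Y | ∀ α ∈ D1, α < β} ∪ ⋃ α ∈ D1, Set.Iic α := by
        intro β hβ
        by_cases h : ∀ α ∈ D1, α < β
        · exact Or.inl ⟨hβ, h⟩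
        · push Not at h
          obtain ⟨α, hα, hle⟩ := h
          right
          simp only [Set.mem_iUnion]
          exact ⟨α, hα, hle⟩
      refine Set.Countable.mono this (hc.union ?_)
      exact Set.Countable.biUnion D1.countable_toSet (fun α _ => countable_Iic hs α)
    -- colour
    choose! K hK using hs
    have hY2 : ∃ k : D1 → ℕ, ¬ {β ∈ Y | (∀ α ∈ D1, α < β) ∧ ∀ α : D1, K α β = k α}.Countable := by
      by_contra hcon
      push Not at hcon
      apply hY1
      have : {β ∈ Y | ∀ α ∈ D1, α < β} ⊆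
          ⋃ k : D1 → ℕ, {β ∈ Y | (∀ α ∈ D1, α < β) ∧ ∀ α : D1, K α β = k α} := by
        intro β hβ
        rw [Set.mem_iUnion]
        exact ⟨fun α => K α β, hβ.1, hβ.2, fun α => rfl⟩
      exact (Set.countable_iUnion hcon).mono this
    obtain ⟨k, hk⟩ := hY2
    set Y2 := {β ∈ Y | (∀ α ∈ D1, α < β) ∧ ∀ α : D1, K α β = k α} with hY2d
    set M : ℕ := D1.attach.sup k with hM
    have hη' : 0 < min η (1 / ((M : ℝ) + 1)) := lt_min hη (by positivity)
    obtain ⟨y, D, hD, hy0, hyη, hysupp, hysum, hyA⟩ := ih Y2 hk _ hη'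
    refine ⟨fun g => (if g ∈ D1 then 1 / (n : ℝ) else 0) + y g, D1 ∪ D, ?_, ?_, ?_, ?_, ?_, ?_⟩
    · intro g hg
      rw [Finset.mem_coe, Finset.mem_union] at hg
      rcases hg with hg | hg
      · exact hD1 hg
      · exact (hD hg).1
    · intro g
      have := hy0 g
      show 0 ≤ (if g ∈ D1 then 1 / (n : ℝ) else 0) + y g
      split_ifs <;> positivity
    · intro g
      by_cases hg : g ∈ D1
      · have : y g = 0 := by
          apply hysupp
          intro hgD
          exact lt_irrefl g ((hD hgD).2.1 g hg)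
        simp only [if_pos hg, this, add_zero]
        rw [div_le_iff₀ hn0]
        rw [div_lt_iff₀ hη] at hn
        linarith
      · simp only [if_neg hg, zero_add]
        exact (hyη g).trans (min_le_left _ _)
    · intro g hg
      rw [Finset.mem_union, not_or] at hg
      simp [hg.1, hysupp g hg.2]
    · rw [Finset.sum_add_distrib]
      have h1 : ∑ g ∈ D1 ∪ D, (if g ∈ D1 then 1 / (n : ℝ) else 0) = 1 := by
        rw [← Finset.sum_filter]
        have : (D1 ∪ D).filter (fun g => g ∈ D1) = D1 := by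
          ext g; simp
        rw [this, Finset.sum_const, hcard, nsmul_eq_mul]
        field_simp
      have h2 : ∑ g ∈ D1 ∪ D, y g = ∑ g ∈ D, y g := by
        symm
        apply Finset.sum_subset Finset.subset_union_right
        intro g _ hg
        exact hysupp g hg
      rw [h1, h2, hysum]
      push_cast; ring
    · intro F hF
      rw [Finset.sum_add_distrib]
      by_cases hFD : ∃ α ∈ F, α ∈ D1
      · obtain ⟨α, hαF, hα1⟩ := hFD
        have h1 : ∑ g ∈ F, (if g ∈ D1 then 1 / (n : ℝ) else 0) ≤ 1 := by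
          rw [← Finset.sum_filter, Finset.sum_const, nsmul_eq_mul]
          have : ((F.filter (fun g => g ∈ D1)).card : ℝ) ≤ n := by
            rw [← hcard]
            exact_mod_cast Finset.card_le_card (fun g hg => (Finset.mem_filter.mp hg).2)
          rw [mul_one_div, div_le_iff₀ hn0, one_mul]
          exact this
        have h2 : ∑ g ∈ F, y g = ∑ g ∈ F ∩ D, y g := by
          symm
          apply Finset.sum_subset Finset.inter_subset_left
          intro g hgF hg
          apply hysupp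
          intro hgD
          exact hg (Finset.mem_inter.mpr ⟨hgF, hgD⟩)
        have hc : (F ∩ D).card ≤ k ⟨α, hα1⟩ + 1 := by
          refine card_above hF hαF (D := F ∩ D) ?_ Finset.inter_subset_left
          intro β hβ
          have hβ2 := hD (Finset.mem_inter.mp hβ).2
          have hlt : α < β := hβ2.2.1 α hα1
          refine ⟨hlt, ?_⟩
          have := hβ2.2.2 ⟨α, hα1⟩
          rw [← this]
          exact hK α β hlt
        have hkM : k ⟨α, hα1⟩ ≤ M := Finset.le_sup (f := k) (Finset.mem_attach D1 ⟨α, hα1⟩)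
        have h3 : ∑ g ∈ F ∩ D, y g ≤ 1 := by
          calc ∑ g ∈ F ∩ D, y g ≤ ∑ g ∈ F ∩ D, 1 / ((M : ℝ) + 1) :=
                Finset.sum_le_sum fun g _ => (hyη g).trans (min_le_right _ _)
            _ = ((F ∩ D).card : ℝ) * (1 / ((M : ℝ) + 1)) := by
                rw [Finset.sum_const, nsmul_eq_mul]
            _ ≤ ((M : ℝ) + 1) * (1 / ((M : ℝ) + 1)) := by
                apply mul_le_mul_of_nonneg_right _ (by positivity)
                exact_mod_cast hc.trans (by omega)
            _ = 1 := by field_simp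
        rw [h2]
        linarith
      · push Not at hFD
        have h1 : ∑ g ∈ F, (if g ∈ D1 then 1 / (n : ℝ) else 0) = 0 := by
          apply Finset.sum_eq_zero
          intro g hg
          rw [if_neg (hFD g hg)]
        rw [h1, zero_add]
        exact hyA F hF

/-- positive sets are countable -/
theorem countable_pos {X : Type} [NormedAddCommGroup X] [NormedSpace ℝ X]
    {e : Γ → X} {f : Γ → X →L[ℝ] ℝ}
    (hs : ∀ a b : Γ, a < b → ∃ K, s b K = a)
    (h1 : ∀ i, f i (e i) = 1) (h2 : ∀ i j, i ≠ j → f i (e j) = 0)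
    (hn : ∀ x B, (∀ F, Ad s F → ∑ g ∈ F, |f g x| ≤ B) → ‖x‖ ≤ B)
    (φ : X →L[ℝ] ℝ) (c : ℝ) (hc : 0 < c) : {g | c ≤ φ (e g)}.Countable := by
  classical
  by_contra hY
  obtain ⟨m, hm⟩ := exists_nat_gt (‖φ‖ * 2 / c)
  obtain ⟨y, D, hD, hy0, -, hysupp, hysum, hyA⟩ := exists_block hs m _ hY 1 one_pos
  set x : X := ∑ g ∈ D, y g • e g with hx
  have hfx : ∀ g, f g x = y g := by
    intro g
    rw [hx, map_sum]
    have : ∀ i, f g (y i • e i) = if g = i then y i else 0 := by
      intro i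
      rw [map_smul, smul_eq_mul]
      by_cases h : g = i
      · subst h; rw [h1]; simp
      · rw [h2 _ _ h]; simp [h]
    simp only [this, Finset.sum_ite_eq]
    by_cases hg : g ∈ D
    · rw [if_pos hg]
    · rw [if_neg hg, hysupp g hg]
  have hxn : ‖x‖ ≤ 2 := by
    apply hn
    intro F hF
    refine le_trans (le_of_eq (Finset.sum_congr rfl fun g _ => ?_)) (hyA F hF)
    rw [hfx, abs_of_nonneg (hy0 g)]
  have hlow : c * m ≤ φ x := by
    rw [hx, map_sum, ← hysum, Finset.mul_sum]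
    apply Finset.sum_le_sum
    intro g hg
    rw [map_smul, smul_eq_mul, mul_comm]
    exact mul_le_mul_of_nonneg_left (hD hg) (hy0 g)
  have hup : φ x ≤ ‖φ‖ * 2 :=
    (le_abs_self _).trans ((φ.le_opNorm x).trans (mul_le_mul_of_nonneg_left hxn (norm_nonneg _)))
  rw [div_lt_iff₀ hc] at hm
  nlinarith

/-- every functional has countable support on the basis -/
theorem countable_support {X : Type} [NormedAddCommGroup X] [NormedSpace ℝ X]
    {e : Γ → X} {f : Γ → X →L[ℝ] ℝ}
    (hs : ∀ a b : Γ, a < b → ∃ K, s b K = a)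
    (h1 : ∀ i, f i (e i) = 1) (h2 : ∀ i j, i ≠ j → f i (e j) = 0)
    (hn : ∀ x B, (∀ F, Ad s F → ∑ g ∈ F, |f g x| ≤ B) → ‖x‖ ≤ B)
    (φ : X →L[ℝ] ℝ) : {g | φ (e g) ≠ 0}.Countable := by
  have hsub : {g | φ (e g) ≠ 0} ⊆
      (⋃ n : ℕ, {g | 1 / ((n : ℝ) + 1) ≤ φ (e g)}) ∪
      (⋃ n : ℕ, {g | 1 / ((n : ℝ) + 1) ≤ (-φ) (e g)}) := by
    intro g hg
    rcases lt_or_gt_of_ne (show φ (e g) ≠ 0 from hg) with h | h
    · right
      obtain ⟨n, hn⟩ := exists_nat_one_div_lt (show 0 < -φ (e g) by linarith)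
      exact Set.mem_iUnion.mpr ⟨n, hn.le⟩
    · left
      obtain ⟨n, hn⟩ := exists_nat_one_div_lt h
      exact Set.mem_iUnion.mpr ⟨n, hn.le⟩
  refine Set.Countable.mono hsub (Set.Countable.union ?_ ?_)
  · exact Set.countable_iUnion fun n => countable_pos hs h1 h2 hn φ _ (by positivity)
  · exact Set.countable_iUnion fun n => countable_pos hs h1 h2 hn (-φ) _ (by positivity)

/-- the WLD hypothesis of S03274 -/
theorem wld {X : Type} [NormedAddCommGroup X] [NormedSpace ℝ X]
    {e : Γ → X} {f : Γ → X →L[ℝ] ℝ}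
    (hs : ∀ a b : Γ, a < b → ∃ K, s b K = a)
    (h1 : ∀ i, f i (e i) = 1) (h2 : ∀ i j, i ≠ j → f i (e j) = 0)
    (hb : ∀ x, HasSum (fun i => f i x • e i) x)
    (hn : ∀ x B, (∀ F, Ad s F → ∑ g ∈ F, |f g x| ≤ B) → ‖x‖ ≤ B) :
    ∃ (Γ : Type) (φ : WeakDual ℝ X → (Γ → ℝ)),
        ContinuousOn φ {f : WeakDual ℝ X | ∀ x : X, |f x| ≤ ‖x‖} ∧
        Set.InjOn φ {f : WeakDual ℝ X | ∀ x : X, |f x| ≤ ‖x‖} ∧
        ∀ f ∈ {f : WeakDual ℝ X | ∀ x : X, |f x| ≤ ‖x‖},
          (Function.support (φ f)).Countable := by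
  refine ⟨Γ, fun F g => F (e g), ?_, ?_, ?_⟩
  · apply Continuous.continuousOn
    exact continuous_pi fun g => WeakDual.eval_continuous (e g)
  · intro F _ G _ hFG
    apply DFunLike.ext
    intro x
    have hF : HasSum (fun i => (F : X →L[ℝ] ℝ) (f i x • e i)) ((F : X →L[ℝ] ℝ) x) :=
      (hb x).mapL (F : X →L[ℝ] ℝ)
    have hG : HasSum (fun i => (G : X →L[ℝ] ℝ) (f i x • e i)) ((G : X →L[ℝ] ℝ) x) :=
      (hb x).mapL (G : X →L[ℝ] ℝ)
    have heq : (fun i => (F : X →L[ℝ] ℝ) (f i x • e i)) = (fun i => (G : X →L[ℝ] ℝ) (f i x • e i)) := by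
      funext i
      rw [map_smul, map_smul]
      have := congrFun hFG i
      exact congrArg (fun t => f i x • t) this
    rw [heq] at hF
    exact hF.unique hG
  · intro F _
    exact countable_support hs h1 h2 hn (F : X →L[ℝ] ℝ)

/-- existence of the space (interface (A)) -/
theorem exists_space (Γ : Type) [LinearOrder Γ] (s : Γ → ℕ → Γ) :
    ∃ (X : Type) (_ : NormedAddCommGroup X) (_ : NormedSpace ℝ X) (_ : CompleteSpace X)
      (e : Γ → X) (f : Γ → X →L[ℝ] ℝ),
      (∀ i, f i (e i) = 1) ∧ (∀ i j, i ≠ j → f i (e j) = 0) ∧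
      (∀ x, HasSum (fun i => f i x • e i) x) ∧
      (∀ x, ∀ F, Ad s F → ∑ g ∈ F, |f g x| ≤ ‖x‖) ∧
      (∀ x B, (∀ F, Ad s F → ∑ g ∈ F, |f g x| ≤ B) → ‖x‖ ≤ B) ∧
      (∀ x, ∀ ε > 0, ∃ F0 : Finset Γ, ∀ F, Ad s F → Disjoint F F0 → ∑ g ∈ F, |f g x| ≤ ε) := by
  have h0 : Ad s ∅ := Ad.empty
  have h1 : ∀ g : Γ, Ad s {g} := Ad.single
  exact ⟨Pool.Helper957.Tro.X (Ad s), inferInstance, inferInstance, inferInstance, e (Ad s), f (Ad s) h1,
    f_e_self _ h1, fun i j hij => f_e_ne _ h1 hij,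
    hasSum _ h1 h0 (fun F G hG hF => hF.mono hG),
    fun x F hF => sum_abs_le _ h1 x F hF,
    fun x B h => norm_le_of _ h1 h0 x B h,
    fun x ε hε => tail _ h1 x ε hε⟩

end Pool.Helper957.Tro
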